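import Pool.Agent.X331.UI.Dens

/-! # Lindenstrauss ultraproducts over good ultrafilters are universally injective, in ZFC -/

set_option autoImplicit false

namespace Pool.Agent.Results.MP_0564d2_an.LindenstraussUltraproducts

open Cardinal Pool.Agent.X331.UI

universe u

/-- For every uncountable cardinal `κ`, every countably incomplete `κ`-good ultrafilter `U` on a set
`I` and every family of real Banach spaces whose ultraproduct is a Lindenstrauss space, the
ultraproduct is universally `(1, κ)`-injective. No hypothesis of set theory is used. -/
theorem result (κ : Cardinal.{u}) (_ : ℵ₀ < κ) {I : Type u}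
    (U : Ultrafilter I) (hU : CountablyIncomplete U) (hG : Good κ U) (X : I → Type u)
    [∀ i, NormedAddCommGroup (X i)] [∀ i, NormedSpace ℝ (X i)] [∀ i, CompleteSpace (X i)]
    (hE : IsLindenstrauss ℝ (Ultraprod ℝ U X)) :
    UnivInjective ℝ (Ultraprod ℝ U X) 1 κ :=
  main hU hG zero_le_one (LInftyPlus.of_forall zero_le_one hE)

end Pool.Agent.Results.MP_0564d2_an.LindenstraussUltraproducts
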